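import Pool.Agent.Helper68.KPR.St

/-! PROJECT KP, chapter A part R, module RDE: derivations and ramification. -/

set_option autoImplicit false

namespace Pool.Agent.Helper34.KPR

open Pool.Agent.Helper68.KPR Pool.Agent.Helper52.KP Pool.Agent.Helper5.KPA MvPolynomial

section Poly

variable {m : ℕ}

private theorem rde_const (g : MvPolynomial (Fin m) ℂ) (h : ∀ l, pderiv l g = 0) :
    g = C (coeff 0 g) := by
  classical
  ext n
  rw [coeff_C]
  split_ifs with hn
  · rw [hn]
  · obtain ⟨l, hl⟩ : ∃ l, n l ≠ 0 := by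
      by_contra hc
      push Not at hc
      apply hn
      ext i
      simp [hc i]
    have hle : Finsupp.single l 1 ≤ n := by
      rw [Finsupp.single_le_iff]
      omega
    have e : n = (n - Finsupp.single l 1) + Finsupp.single l 1 := (tsub_add_cancel_of_le hle).symm
    have h1 := coeff_pderiv (i := l) g (n - Finsupp.single l 1)
    rw [h l, coeff_zero, ← e] at h1
    rcases mul_eq_zero.1 h1.symm with h3 | h3
    · exact h3
    · exact absurd h3 (Nat.cast_add_one_ne_zero _)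

private theorem rde_deg (g : MvPolynomial (Fin m) ℂ) (l : Fin m) (h : pderiv l g ≠ 0) :
    (pderiv l g).totalDegree + 1 ≤ g.totalDegree := by
  classical
  have hne : (pderiv l g).support.Nonempty := by
    rwa [Finset.nonempty_iff_ne_empty, Ne, support_eq_empty]
  obtain ⟨n, hn, hn'⟩ := Finset.exists_mem_eq_sup _ hne (fun s : Fin m →₀ ℕ => s.sum fun _ e => e)
  have e0 : (pderiv l g).totalDegree = n.sum fun _ e => e := hn'
  have h1 : n + Finsupp.single l 1 ∈ g.support := by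
    rw [mem_support_iff]
    rw [mem_support_iff, coeff_pderiv] at hn
    exact left_ne_zero_of_mul hn
  have h2 := le_totalDegree h1
  rw [Finsupp.sum_add_index' (fun _ => rfl) (fun _ _ _ => rfl),
    Finsupp.sum_single_index rfl] at h2
  rw [e0]
  exact h2

private theorem rde_ex (g : MvPolynomial (Fin m) ℂ) (hg : Prime g) : ∃ l, ¬ g ∣ pderiv l g := by
  by_contra hc
  push Not at hc
  have h0 : ∀ l, pderiv l g = 0 := by
    intro l
    by_contra h
    obtain ⟨q, hq⟩ := hc l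
    have hq0 : q ≠ 0 := by
      rintro rfl
      rw [mul_zero] at hq
      exact h hq
    have h1 := rde_deg g l h
    rw [hq, totalDegree_mul_of_isDomain hg.ne_zero hq0] at h1
    omega
  have h1 := rde_const g h0
  apply hg.not_isUnit
  have h2 : coeff 0 g ≠ 0 := by
    intro h3
    rw [h3, C_0] at h1
    exact hg.ne_zero h1
  rw [h1]
  exact (IsUnit.mk0 _ h2).map C

private theorem rde_chain (D : Type) [CommRing D] [Algebra ℂ D]
    [Algebra (MvPolynomial (Fin m) ℂ) D] [IsScalarTower ℂ (MvPolynomial (Fin m) ℂ) D]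
    (δ : Derivation ℂ D D) (S : D) (l : Fin m)
    (h1 : δ (algebraMap (MvPolynomial (Fin m) ℂ) D (X l)) = S)
    (h2 : ∀ j, j ≠ l → δ (algebraMap (MvPolynomial (Fin m) ℂ) D (X j)) = 0)
    (p : MvPolynomial (Fin m) ℂ) :
    δ (algebraMap (MvPolynomial (Fin m) ℂ) D p) =
      algebraMap (MvPolynomial (Fin m) ℂ) D (pderiv l p) * S := by
  classical
  induction p using MvPolynomial.induction_on with
  | C a =>
    rw [pderiv_C, map_zero, zero_mul]
    have e : algebraMap (MvPolynomial (Fin m) ℂ) D (C a) = algebraMap ℂ D a := by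
      rw [IsScalarTower.algebraMap_apply ℂ (MvPolynomial (Fin m) ℂ) D, MvPolynomial.algebraMap_eq]
    rw [e, δ.map_algebraMap]
  | add p q hp hq => rw [map_add, map_add, hp, hq, map_add, map_add, add_mul]
  | mul_X p j hp =>
    rw [map_mul, Derivation.leibniz, hp, pderiv_mul, map_add, map_mul, map_mul]
    by_cases hj : j = l
    · subst hj
      rw [h1, pderiv_X_self, map_one, smul_eq_mul, smul_eq_mul]
      ring
    · rw [h2 j hj, pderiv_X_of_ne hj, map_zero, smul_zero, smul_eq_mul]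
      ring

end Poly

/-- **RDE.** -/
theorem hRDE : StRDE := by
  intro m D L _ _ _ _ _ _ _ _ _ g v hg hv S hS hder
  have hDL : Function.Injective (algebraMap D L) := IsFractionRing.injective D L
  have hPD : Function.Injective (algebraMap (MvPolynomial (Fin m) ℂ) D) :=
    FaithfulSMul.algebraMap_injective _ _
  have hne : ∀ b : D, b ≠ 0 → algebraMap D L b ≠ 0 := fun b hb => by
    rwa [Ne, map_eq_zero_iff _ hDL]
  have hvD : ∀ a b : D, a ≠ 0 → b ≠ 0 →
      v (algebraMap D L (a * b)) = v (algebraMap D L a) + v (algebraMap D L b) := by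
    intro a b ha hb
    rw [map_mul]
    exact hv.mul _ _ (hne a ha) (hne b hb)
  have hv1 : v 1 = 0 := by
    have := hv.mul 1 1 one_ne_zero one_ne_zero
    rw [mul_one] at this
    linarith
  have hvpow : ∀ (x : L) (n : ℕ), x ≠ 0 → v (x ^ n) = n * v x := by
    intro x n hx
    induction n with
    | zero => rw [pow_zero, hv1, Nat.cast_zero, zero_mul]
    | succ n ih =>
      rw [pow_succ, hv.mul _ _ (pow_ne_zero n hx) hx, ih]
      push_cast
      ring
  set gD : D := algebraMap (MvPolynomial (Fin m) ℂ) D g with hgD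
  have hgD0 : gD ≠ 0 := by
    rw [hgD, Ne, map_eq_zero_iff _ hPD]
    exact hg.ne_zero
  have he0 : 0 ≤ v (algebraMap D L gD) := hv.pos _ hgD0
  have hS0 : 0 ≤ v (algebraMap D L S) := hv.pos _ hS
  rcases le_or_gt (v (algebraMap D L gD)) 1 with he | he
  · linarith
  obtain ⟨e, hee⟩ := Int.eq_ofNat_of_zero_le he0
  obtain ⟨n, rfl⟩ : ∃ n, e = n + 1 := ⟨e - 1, by omega⟩
  obtain ⟨l, hl⟩ := rde_ex g hg
  obtain ⟨δ, hδ1, hδ2⟩ := hder l
  have hδg := rde_chain D δ S l hδ1 hδ2 g
  obtain ⟨ζ, hζ0, hζ⟩ := hv.unif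
  obtain ⟨f1, h1, hh10, hh1, hf1⟩ := hv.frac ζ hζ0 (by rw [hζ]; exact zero_le_one)
  have hgL0 : algebraMap D L gD ≠ 0 := hne _ hgD0
  have hζn : ζ ^ (n + 1) ≠ 0 := pow_ne_zero _ hζ0
  have hε0 : algebraMap D L gD / ζ ^ (n + 1) ≠ 0 := div_ne_zero hgL0 hζn
  have hε : v (algebraMap D L gD / ζ ^ (n + 1)) = 0 := by
    have h := hv.mul (algebraMap D L gD / ζ ^ (n + 1)) (ζ ^ (n + 1)) hε0 hζn
    rw [div_mul_cancel₀ _ hζn, hvpow ζ _ hζ0, hζ, mul_one, hee] at h
    linarith
  obtain ⟨f2, h2, hh20, hh2, hf2⟩ := hv.frac _ hε0 hε.ge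
  have hf10 : f1 ≠ 0 := by
    rintro rfl
    rw [map_zero, mul_eq_zero] at hf1
    rcases hf1 with h | h
    · exact hζ0 h
    · exact hne _ hh10 h
  have hvf1 : v (algebraMap D L f1) = 1 := by
    rw [← hf1, hv.mul _ _ hζ0 (hne _ hh10), hζ, hh1, add_zero]
  -- the relation in `D`
  obtain ⟨H, hH⟩ : ∃ H : D, H = h1 ^ (n + 1) * h2 := ⟨_, rfl⟩
  have hH0 : H ≠ 0 := by
    rw [hH]
    exact mul_ne_zero (pow_ne_zero _ hh10) hh20
  have hvH : v (algebraMap D L H) = 0 := by
    rw [hH, hvD _ _ (pow_ne_zero _ hh10) hh20, map_pow, hvpow _ _ (hne _ hh10), hh1, hh2]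
    ring
  have hrel : gD * H = f1 ^ (n + 1) * f2 := by
    apply hDL
    rw [hH, map_mul, map_mul, map_mul, map_pow, map_pow, ← hf1, ← hf2]
    field_simp
    ring
  -- apply the derivation
  have hd : δ (gD * H) = δ (f1 ^ (n + 1) * f2) := by rw [hrel]
  have d1 : δ (gD * H) = gD * δ H + H * δ gD := by
    have := δ.leibniz gD H
    simpa only [smul_eq_mul] using this
  have d2 : δ (f1 ^ (n + 1) * f2) = f1 ^ (n + 1) * δ f2 + f2 * δ (f1 ^ (n + 1)) := by
    have := δ.leibniz (f1 ^ (n + 1)) f2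
    simpa only [smul_eq_mul] using this
  have d3 : δ (f1 ^ (n + 1)) = ((n + 1 : ℕ) : D) * (f1 ^ n * δ f1) := by
    have := δ.leibniz_pow f1 (n + 1)
    simpa only [smul_eq_mul, nsmul_eq_mul, Nat.add_sub_cancel] using this
  rw [d1, d2, d3, hgD, hδg, ← hgD] at hd
  set w : D := H * (((n + 1 : ℕ) : D) * δ f1 * f2 + f1 * δ f2) - f1 * f2 * δ H with hw
  have hmain : algebraMap (MvPolynomial (Fin m) ℂ) D (pderiv l g) * S * H ^ 2 = f1 ^ n * w := by
    rw [hw]
    have h3 : gD * H * δ H = f1 ^ (n + 1) * f2 * δ H := by rw [hrel]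
    rw [pow_succ] at h3 hd
    linear_combination H * hd - h3
  have hpl0 : algebraMap (MvPolynomial (Fin m) ℂ) D (pderiv l g) ≠ 0 := by
    rw [Ne, map_eq_zero_iff _ hPD]
    intro h
    rw [h] at hl
    exact hl (dvd_zero g)
  have hlhs0 : algebraMap (MvPolynomial (Fin m) ℂ) D (pderiv l g) * S * H ^ 2 ≠ 0 :=
    mul_ne_zero (mul_ne_zero hpl0 hS) (pow_ne_zero _ hH0)
  have hw0 : w ≠ 0 := by
    intro h
    rw [hmain, h, mul_zero] at hlhs0
    exact hlhs0 rfl
  have hval : v (algebraMap D L (algebraMap (MvPolynomial (Fin m) ℂ) D (pderiv l g) * S * H ^ 2)) =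
      v (algebraMap D L (f1 ^ n * w)) := by rw [hmain]
  rw [hvD _ _ (mul_ne_zero hpl0 hS) (pow_ne_zero _ hH0), hvD _ _ hpl0 hS, hv.unit _ hl, map_pow,
    hvpow _ _ (hne _ hH0), hvH, hvD _ _ (pow_ne_zero _ hf10) hw0, map_pow,
    hvpow _ _ (hne _ hf10), hvf1] at hval
  have hw1 := hv.pos w hw0
  rw [hee]
  push_cast
  linarith

end Pool.Agent.Helper34.KPR
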